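import Mathlib

/-!
# The clique-number bound on the ratio of chromatic polynomial values

Main result: `ratio_bound`. The proof is by strong induction on the number of vertices. We delete a
vertex `v` outside the clique, write the number of `q`-colourings of `G` as
`(q - d) P(G - v, q) + rep`, where `rep` counts repeated colours in the neighbourhood of `v`, write
`rep` as a sum of numbers of `q`-colourings of graphs obtained from `G - v` by identifying two
non-adjacent neighbours of `v`, and bound the expected number of repeats.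
-/

namespace Pool.Agent.Lib.MP_31cced_co

open Finset Classical

universe u

section defs

variable {V : Type u} [Fintype V]

/-- The proper colourings of `G` with colours in `Fin q`, as functions. -/
noncomputable def cols (G : SimpleGraph V) (q : ℕ) : Finset (V → Fin q) :=
  Finset.univ.filter (fun f => ∀ a b, G.Adj a b → f a ≠ f b)

lemma mem_cols {G : SimpleGraph V} {q : ℕ} {f : V → Fin q} :
    f ∈ cols G q ↔ ∀ a b, G.Adj a b → f a ≠ f b := by
  simp [cols]

/-- The number of proper `q`-colourings. -/
noncomputable def P (G : SimpleGraph V) (q : ℕ) : ℕ :=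
  Nat.card {f : V → Fin q // ∀ a b, G.Adj a b → f a ≠ f b}

lemma P_eq (G : SimpleGraph V) (q : ℕ) : P G q = (cols G q).card :=
  Nat.subtype_card _ (fun _ => mem_cols)

lemma card_coloring (G : SimpleGraph V) (q : ℕ) : Nat.card (G.Coloring (Fin q)) = P G q := by
  have e : G.Coloring (Fin q) ≃ {f : V → Fin q // f ∈ cols G q} :=
    { toFun := fun c => ⟨fun v => c v, by
        rw [mem_cols]
        intro a b hab
        exact c.valid hab⟩
      invFun := fun f => SimpleGraph.Coloring.mk f.1 (by
        intro a b hab
        exact (mem_cols.mp f.2) a b hab)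
      left_inv := by
        intro c
        ext v
        rfl
      right_inv := by
        intro f
        ext v
        rfl }
  rw [Nat.card_congr e, P_eq]
  simp

/-- The total number of repeated colours on `S` over all proper `q`-colourings. -/
noncomputable def rep (H : SimpleGraph V) (S : Finset V) (q : ℕ) : ℕ :=
  ∑ g ∈ cols H q, (S.card - (S.image g).card)

/-- The colourings giving `u` a colour that already appears on `S`. -/
noncomputable def hit (H : SimpleGraph V) (u : V) (S : Finset V) (q : ℕ) : ℕ :=
  ((cols H q).filter (fun g => g u ∈ S.image g)).card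

/-- The colourings giving `u` and `w` the same colour. -/
noncomputable def same (H : SimpleGraph V) (u w : V) (q : ℕ) : ℕ :=
  ((cols H q).filter (fun g => g u = g w)).card

lemma rep_empty (H : SimpleGraph V) (q : ℕ) : rep H ∅ q = 0 := by
  simp [rep]

lemma hit_empty (H : SimpleGraph V) (u : V) (q : ℕ) : hit H u ∅ q = 0 := by
  simp [hit]

lemma rep_insert (H : SimpleGraph V) (S : Finset V) (u : V) (hu : u ∉ S) (q : ℕ) :
    rep H (insert u S) q = rep H S q + hit H u S q := by
  unfold rep hit
  rw [Finset.card_filter, ← Finset.sum_add_distrib]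
  apply Finset.sum_congr rfl
  intro g _
  rw [Finset.card_insert_of_notMem hu, Finset.image_insert]
  have hle : (S.image g).card ≤ S.card := Finset.card_image_le
  by_cases h : g u ∈ S.image g
  · rw [Finset.insert_eq_of_mem h, if_pos h]
    omega
  · rw [Finset.card_insert_of_notMem h, if_neg h]
    omega

/-- The colourings with `g u = g w` and `g u` not appearing on `S`. -/
noncomputable def first (H : SimpleGraph V) (u w : V) (S : Finset V) (q : ℕ) : ℕ :=
  ((cols H q).filter (fun g => g u = g w ∧ g u ∉ S.image g)).card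

lemma hit_insert (H : SimpleGraph V) (S : Finset V) (u w : V) (q : ℕ) :
    hit H u (insert w S) q = hit H u S q + first H u w S q := by
  unfold hit first
  rw [← Finset.card_union_of_disjoint]
  · congr 1
    ext g
    simp only [mem_filter, mem_union, Finset.image_insert, mem_insert]
    tauto
  · rw [Finset.disjoint_left]
    intro g h1 h2
    simp only [mem_filter] at h1 h2
    exact h2.2.2 h1.2

lemma hit_le_sum (H : SimpleGraph V) (S : Finset V) (u : V) (q : ℕ) :
    hit H u S q ≤ ∑ w ∈ S, same H u w q := by
  induction S using Finset.induction_on with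
  | empty => simp [hit_empty]
  | insert w S hw ih =>
    rw [hit_insert, Finset.sum_insert hw, add_comm]
    apply Nat.add_le_add _ ih
    unfold first same
    apply Finset.card_le_card
    intro g hg
    simp only [mem_filter] at hg ⊢
    exact ⟨hg.1, hg.2.1⟩

lemma same_comm (H : SimpleGraph V) (u w : V) (q : ℕ) : same H u w q = same H w u q := by
  unfold same
  congr 1
  ext g
  simp only [mem_filter]
  constructor <;> (rintro ⟨h1, h2⟩; exact ⟨h1, h2.symm⟩)

lemma two_rep_le (H : SimpleGraph V) (S : Finset V) (q : ℕ) :
    2 * rep H S q ≤ ∑ u ∈ S, ∑ w ∈ S.erase u, same H u w q := by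
  induction S using Finset.induction_on with
  | empty => simp [rep_empty]
  | insert a S ha ih =>
    rw [rep_insert H S a ha, Finset.sum_insert ha, Finset.erase_insert ha, mul_add]
    have h1 : ∑ u ∈ S, ∑ w ∈ (insert a S).erase u, same H u w q
        = (∑ u ∈ S, ∑ w ∈ S.erase u, same H u w q) + ∑ u ∈ S, same H a u q := by
      rw [← Finset.sum_add_distrib]
      apply Finset.sum_congr rfl
      intro u hu
      have hne : u ≠ a := by
        rintro rfl
        exact ha hu
      rw [Finset.erase_insert_of_ne hne.symm, Finset.sum_insert, add_comm, same_comm H u a]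
      intro h
      exact ha (Finset.mem_of_mem_erase h)
    rw [h1]
    have h2 := hit_le_sum H S a q
    omega

/-- The number of available colours is a lower bound for the fibres of `same`. -/
lemma same_mul_le (H : SimpleGraph V) (u w : V) (huw : u ≠ w) (q : ℕ) :
    same H u w q * (q - (Finset.univ.filter (fun x => H.Adj u x)).card) ≤ P H q := by
  set N := Finset.univ.filter (fun x => H.Adj u x) with hN
  have key : (((cols H q).filter (fun g => g u = g w)).sigma
      (fun g => (Finset.univ : Finset (Fin q)) \ N.image g)).card ≤ P H q := by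
    rw [P_eq]
    apply Finset.card_le_card_of_injOn (fun p => Function.update p.1 u p.2)
    · intro p hp
      simp only [Finset.mem_coe, Finset.mem_sigma, mem_filter, mem_sdiff, mem_univ, true_and,
        mem_image, not_exists, not_and, mem_cols] at hp
      simp only [Finset.mem_coe, mem_cols]
      obtain ⟨⟨h1, _⟩, h2⟩ := hp
      intro a b hab
      have hne : a ≠ b := hab.ne
      by_cases ha : a = u
      · subst ha
        rw [Function.update_self, Function.update_of_ne hne.symm]
        have := h2 b (by simp [hN, hab])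
        exact fun h => this h.symm
      · by_cases hb : b = u
        · subst hb
          rw [Function.update_self, Function.update_of_ne hne]
          exact h2 a (by simp [hN, hab.symm])
        · rw [Function.update_of_ne ha, Function.update_of_ne hb]
          exact h1 a b hab
    · intro p hp p' hp' heq
      simp only [Finset.mem_coe, Finset.mem_sigma, mem_filter] at hp hp'
      simp only at heq
      obtain ⟨g, c⟩ := p
      obtain ⟨g', c'⟩ := p'
      simp only at hp hp' heq
      have hc : c = c' := by
        have := congrFun heq u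
        simpa using this
      have hx : ∀ x, x ≠ u → g x = g' x := by
        intro x hx
        have := congrFun heq x
        rwa [Function.update_of_ne hx, Function.update_of_ne hx] at this
      have hg : g = g' := by
        funext x
        by_cases hxu : x = u
        · subst hxu
          rw [hp.1.2, hp'.1.2]
          exact hx w huw.symm
        · exact hx x hxu
      subst hg
      subst hc
      rfl
  refine le_trans ?_ key
  rw [Finset.card_sigma]
  unfold same
  rw [← smul_eq_mul, ← Finset.sum_const]
  apply Finset.sum_le_sum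
  intro g _
  rw [Finset.card_sdiff_of_subset (Finset.subset_univ _), Finset.card_univ, Fintype.card_fin]
  have : (N.image g).card ≤ N.card := Finset.card_image_le
  omega

lemma same_adj (H : SimpleGraph V) (u w : V) (h : H.Adj u w) (q : ℕ) : same H u w q = 0 := by
  unfold same
  rw [Finset.card_eq_zero, Finset.filter_eq_empty_iff]
  intro g hg heq
  exact (mem_cols.mp hg) u w h heq

lemma first_adj (H : SimpleGraph V) (u w : V) (S : Finset V) (h : H.Adj u w) (q : ℕ) :
    first H u w S q = 0 := by
  unfold first
  rw [Finset.card_eq_zero, Finset.filter_eq_empty_iff]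
  intro g hg heq
  exact (mem_cols.mp hg) u w h heq.1

/-- The graph obtained by identifying `u` with `w` and joining the merged vertex to `S`. -/
def merge (H : SimpleGraph V) (u w : V) (S : Finset V) : SimpleGraph {x : V // x ≠ u} :=
  SimpleGraph.fromRel (fun a b => H.Adj a.1 b.1 ∨ (a.1 = w ∧ (H.Adj u b.1 ∨ b.1 ∈ S)))

lemma first_eq (H : SimpleGraph V) (u w : V) (S : Finset V) (huw : u ≠ w) (hadj : ¬ H.Adj u w)
    (huS : u ∉ S) (hwS : w ∉ S) (q : ℕ) :
    first H u w S q = P (merge H u w S) q := by
  unfold first
  rw [P_eq]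
  apply Finset.card_nbij' (i := fun g => fun x : {x : V // x ≠ u} => g x.1)
    (j := fun g => fun x : V => if h : x = u then g ⟨w, huw.symm⟩ else g ⟨x, h⟩)
  · intro g hg
    simp only [Finset.mem_coe, mem_filter, mem_cols, mem_image, not_exists, not_and] at hg
    simp only [Finset.mem_coe, mem_cols]
    obtain ⟨hg, hguw, hgS⟩ := hg
    intro a b hab
    simp only [merge, SimpleGraph.fromRel_adj] at hab
    obtain ⟨hne, h | h⟩ := hab
    · obtain h | ⟨h1, h2 | h2⟩ := h
      · exact hg _ _ h
      · rw [h1, ← hguw]
        exact hg _ _ h2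
      · rw [h1, ← hguw]
        intro h
        exact hgS _ h2 h.symm
    · obtain h | ⟨h1, h2 | h2⟩ := h
      · exact (hg _ _ h).symm
      · rw [h1, ← hguw]
        exact (hg _ _ h2).symm
      · rw [h1, ← hguw]
        exact hgS _ h2
  · intro g hg
    simp only [Finset.mem_coe, mem_cols] at hg
    simp only [Finset.mem_coe, mem_filter, mem_cols, mem_image, not_exists, not_and]
    refine ⟨?_, ?_, ?_⟩
    · intro a b hab
      by_cases ha : a = u
      · subst ha
        have hb : b ≠ a := hab.ne.symm
        have hbw : b ≠ w := by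
          rintro rfl
          exact hadj hab
        rw [dif_pos rfl, dif_neg hb]
        apply hg
        simp only [merge, SimpleGraph.fromRel_adj, ne_eq, Subtype.mk.injEq]
        exact ⟨fun h => hbw h.symm, Or.inl (Or.inr ⟨trivial, Or.inl hab⟩)⟩
      · by_cases hb : b = u
        · subst hb
          have haw : a ≠ w := by
            rintro rfl
            exact hadj hab.symm
          rw [dif_neg ha, dif_pos rfl]
          apply hg
          simp only [merge, SimpleGraph.fromRel_adj, ne_eq, Subtype.mk.injEq]
          exact ⟨haw, Or.inr (Or.inr ⟨trivial, Or.inl hab.symm⟩)⟩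
        · rw [dif_neg ha, dif_neg hb]
          apply hg
          simp only [merge, SimpleGraph.fromRel_adj, ne_eq, Subtype.mk.injEq]
          exact ⟨hab.ne, Or.inl (Or.inl hab)⟩
    · rw [dif_pos trivial, dif_neg huw.symm]
    · intro s hs
      have hsu : s ≠ u := by
        rintro rfl
        exact huS hs
      have hsw : s ≠ w := by
        rintro rfl
        exact hwS hs
      rw [dif_pos trivial, dif_neg hsu]
      apply hg
      simp only [merge, SimpleGraph.fromRel_adj, ne_eq, Subtype.mk.injEq]
      exact ⟨hsw, Or.inr (Or.inr ⟨trivial, Or.inr hs⟩)⟩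
  · intro g hg
    simp only [Finset.mem_coe, mem_filter] at hg
    funext x
    by_cases hx : x = u
    · subst hx
      simp only [dite_true]
      exact hg.2.1.symm
    · simp only [dif_neg hx]
  · intro g _
    funext x
    simp only [dif_neg x.2]

omit [Fintype V] in
/-- A clique of `H` survives the merge of two non-adjacent vertices. -/
lemma merge_clique (H : SimpleGraph V) (u w : V) (S : Finset V) (huw : u ≠ w)
    (hadj : ¬ H.Adj u w) (k : ℕ) (h : ∃ K : Finset V, H.IsNClique k K) :
    ∃ K : Finset {x : V // x ≠ u}, (merge H u w S).IsNClique k K := by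
  obtain ⟨K, hK⟩ := h
  rw [SimpleGraph.isNClique_iff] at hK
  obtain ⟨hKc, hKk⟩ := hK
  by_cases huK : u ∈ K
  · have hwK : w ∉ K := by
      intro hw
      exact hadj (hKc huK hw huw)
    refine ⟨(insert w (K.erase u)).subtype (fun x => x ≠ u), ?_⟩
    rw [SimpleGraph.isNClique_iff]
    constructor
    · intro a ha b hb hab
      simp only [Finset.mem_coe, Finset.mem_subtype, mem_insert, mem_erase] at ha hb
      have hab' : a.1 ≠ b.1 := fun h => hab (Subtype.ext h)
      simp only [merge, SimpleGraph.fromRel_adj]
      refine ⟨hab, ?_⟩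
      rcases ha with ha | ha
      · rcases hb with hb | hb
        · exact absurd (ha.trans hb.symm) hab'
        · exact Or.inl (Or.inr ⟨ha, Or.inl (hKc huK hb.2 hb.1.symm)⟩)
      · rcases hb with hb | hb
        · exact Or.inr (Or.inr ⟨hb, Or.inl (hKc huK ha.2 ha.1.symm)⟩)
        · exact Or.inl (Or.inl (hKc ha.2 hb.2 hab'))
    · rw [Finset.card_subtype, Finset.filter_true_of_mem, Finset.card_insert_of_notMem,
        Finset.card_erase_of_mem huK]
      · have : 0 < K.card := Finset.card_pos.mpr ⟨u, huK⟩
        omega
      · intro h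
        exact hwK (Finset.mem_of_mem_erase h)
      · intro x hx
        rw [mem_insert, mem_erase] at hx
        rcases hx with hx | hx
        · rw [hx]
          exact huw.symm
        · exact hx.1
  · refine ⟨K.subtype (fun x => x ≠ u), ?_⟩
    rw [SimpleGraph.isNClique_iff]
    constructor
    · intro a ha b hb hab
      simp only [Finset.mem_coe, Finset.mem_subtype] at ha hb
      have hab' : a.1 ≠ b.1 := fun h => hab (Subtype.ext h)
      simp only [merge, SimpleGraph.fromRel_adj]
      exact ⟨hab, Or.inl (Or.inl (hKc ha hb hab'))⟩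
    · rw [Finset.card_subtype, Finset.filter_true_of_mem, hKk]
      intro x hx h
      subst h
      exact huK hx

end defs

section main

/-- The graph `G` with the vertex `v` deleted. -/
def del {V : Type u} (G : SimpleGraph V) (v : V) : SimpleGraph {x : V // x ≠ v} :=
  G.comap Subtype.val

/-- The neighbourhood of `v` as a set of vertices of `G - v`. -/
noncomputable def nbr {V : Type u} [Fintype V] (G : SimpleGraph V) (v : V) :
    Finset {x : V // x ≠ v} := Finset.univ.filter (fun x => G.Adj v x.1)

lemma P_del {V : Type u} [Fintype V] (G : SimpleGraph V) (v : V) (q : ℕ) :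
    P G q = ∑ g ∈ cols (del G v) q, (q - ((nbr G v).image g).card) := by
  have h : P G q = ((cols (del G v) q).sigma
      (fun g => (Finset.univ : Finset (Fin q)) \ (nbr G v).image g)).card := by
    rw [P_eq]
    apply Finset.card_nbij'
      (i := fun f => (⟨fun x => f x.1, f v⟩ : (_ : {x : V // x ≠ v} → Fin q) × Fin q))
      (j := fun p => fun x : V => if h : x = v then p.2 else p.1 ⟨x, h⟩)
    · intro f hf
      simp only [Finset.mem_coe, mem_cols] at hf
      simp only [Finset.mem_coe, Finset.mem_sigma, mem_cols, mem_sdiff, mem_univ, true_and,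
        mem_image, not_exists, not_and]
      refine ⟨fun a b hab => hf _ _ hab, ?_⟩
      intro x hx
      simp only [nbr, mem_filter, mem_univ, true_and] at hx
      exact (hf _ _ hx).symm
    · intro p hp
      simp only [Finset.mem_coe, Finset.mem_sigma, mem_cols, mem_sdiff, mem_univ, true_and,
        mem_image, not_exists, not_and] at hp
      simp only [Finset.mem_coe, mem_cols]
      obtain ⟨h1, h2⟩ := hp
      intro a b hab
      by_cases ha : a = v
      · subst ha
        have hb : b ≠ a := hab.ne.symm
        rw [dif_pos rfl, dif_neg hb]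
        exact fun h => h2 ⟨b, hb⟩ (by simp [nbr, hab]) h.symm
      · by_cases hb : b = v
        · subst hb
          rw [dif_neg ha, dif_pos rfl]
          exact h2 ⟨a, ha⟩ (by simp [nbr, hab.symm])
        · rw [dif_neg ha, dif_neg hb]
          exact h1 ⟨a, ha⟩ ⟨b, hb⟩ hab
    · intro f _
      funext x
      by_cases hx : x = v
      · subst hx
        simp
      · simp [hx]
    · intro p _
      obtain ⟨g, c⟩ := p
      have h1 : (fun x : {x : V // x ≠ v} => if h : x.1 = v then c else g ⟨x.1, h⟩) = g := by
        funext x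
        rw [dif_neg x.2]
      simp only [dite_true]
      rw [h1]
  rw [h, Finset.card_sigma]
  apply Finset.sum_congr rfl
  intro g _
  rw [Finset.card_sdiff_of_subset (Finset.subset_univ _), Finset.card_univ, Fintype.card_fin]

/-- `P(G,q) = (q - d) P(G - v, q) + rep`. -/
lemma P_del_real {V : Type u} [Fintype V] (G : SimpleGraph V) (v : V) (q : ℕ) :
    (P G q : ℝ) = ((q : ℝ) - (nbr G v).card) * P (del G v) q + rep (del G v) (nbr G v) q := by
  rw [P_del G v q, P_eq]
  unfold rep
  push_cast
  rw [mul_comm, ← nsmul_eq_mul, ← Finset.sum_const, ← Finset.sum_add_distrib]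
  apply Finset.sum_congr rfl
  intro g _
  have h1 : ((nbr G v).image g).card ≤ (nbr G v).card := Finset.card_image_le
  have h2 : ((nbr G v).image g).card ≤ q := by
    have := Finset.card_le_univ ((nbr G v).image g)
    rwa [Fintype.card_fin] at this
  rw [Nat.cast_sub h1, Nat.cast_sub h2]
  ring

/-- The expected number of `w ∈ N` sharing the colour of `u`. -/
lemma sum_same_le {W : Type u} [Fintype W] (H : SimpleGraph W) (N : Finset W) (u : W)
    (hu : u ∈ N) (q : ℕ) (hq : Fintype.card W + 1 ≤ q) :
    ((∑ w ∈ N.erase u, same H u w q : ℕ) : ℝ)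
      ≤ (((N.card : ℝ) - 1) / ((N.card : ℝ) + 1)) * P H q := by
  set B := (N.erase u).filter (fun w => ¬ H.Adj u w) with hB
  set D := Finset.univ.filter (fun x => H.Adj u x) with hD
  have hsum : ∑ w ∈ N.erase u, same H u w q = ∑ w ∈ B, same H u w q := by
    symm
    apply Finset.sum_subset (Finset.filter_subset _ _)
    intro w hw hwB
    apply same_adj
    by_contra hcon
    exact hwB (by rw [mem_filter]; exact ⟨hw, hcon⟩)
  have hcard : D.card + B.card + 1 ≤ Fintype.card W := by
    have hdisj : Disjoint D B := by
      rw [Finset.disjoint_left]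
      intro x hx hx'
      simp only [hD, hB, mem_filter] at hx hx'
      exact hx'.2 hx.2
    have hu' : u ∉ D ∪ B := by
      simp [hD, hB]
    have := Finset.card_le_univ (insert u (D ∪ B))
    rw [Finset.card_insert_of_notMem hu', Finset.card_union_of_disjoint hdisj] at this
    exact this
  have hBN : B.card + 1 ≤ N.card := by
    have h1 : B.card ≤ (N.erase u).card := Finset.card_filter_le _ _
    rw [Finset.card_erase_of_mem hu] at h1
    have : 0 < N.card := Finset.card_pos.mpr ⟨u, hu⟩
    omega
  have hsame : ∀ w ∈ B, same H u w q * (B.card + 2) ≤ P H q := by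
    intro w hw
    have hne : u ≠ w := by
      simp only [hB, mem_filter, mem_erase] at hw
      exact fun h => hw.1.1 h.symm
    have h1 := same_mul_le H u w hne q
    refine le_trans (Nat.mul_le_mul_left _ ?_) h1
    rw [← hD]
    omega
  have hsum2 : (∑ w ∈ B, same H u w q) * (B.card + 2) ≤ B.card * P H q := by
    rw [Finset.sum_mul]
    calc ∑ w ∈ B, same H u w q * (B.card + 2) ≤ ∑ _w ∈ B, P H q := Finset.sum_le_sum hsame
      _ = B.card * P H q := by rw [Finset.sum_const, smul_eq_mul]
  rw [hsum]
  have hsum3 : ((∑ w ∈ B, same H u w q : ℕ) : ℝ) * ((B.card : ℝ) + 2)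
      ≤ (B.card : ℝ) * (P H q : ℝ) := by exact_mod_cast hsum2
  have hBN' : (B.card : ℝ) + 1 ≤ (N.card : ℝ) := by exact_mod_cast hBN
  have hb0 : (0 : ℝ) ≤ (B.card : ℝ) := Nat.cast_nonneg _
  have hP0 : (0 : ℝ) ≤ (P H q : ℝ) := Nat.cast_nonneg _
  have hS0 : (0 : ℝ) ≤ ((∑ w ∈ B, same H u w q : ℕ) : ℝ) := Nat.cast_nonneg _
  rw [div_mul_eq_mul_div, le_div_iff₀ (by linarith)]
  have h4 : ((∑ w ∈ B, same H u w q : ℕ) : ℝ) ≤ (B.card : ℝ) * (P H q : ℝ) / ((B.card : ℝ) + 2) := by
    rw [le_div_iff₀ (by linarith)]
    exact hsum3
  calc ((∑ w ∈ B, same H u w q : ℕ) : ℝ) * ((N.card : ℝ) + 1)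
      ≤ ((B.card : ℝ) * (P H q : ℝ) / ((B.card : ℝ) + 2)) * ((N.card : ℝ) + 1) := by
        apply mul_le_mul_of_nonneg_right h4
        linarith
    _ = ((B.card : ℝ) * ((N.card : ℝ) + 1) / ((B.card : ℝ) + 2)) * (P H q : ℝ) := by ring
    _ ≤ ((N.card : ℝ) - 1) * (P H q : ℝ) := by
        apply mul_le_mul_of_nonneg_right _ hP0
        rw [div_le_iff₀ (by linarith)]
        nlinarith

/-- The expected number of repeated colours on `N`. -/
lemma rep_le {W : Type u} [Fintype W] (H : SimpleGraph W) (N : Finset W) (q : ℕ)
    (hq : Fintype.card W + 1 ≤ q) :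
    2 * (rep H N q : ℝ)
      ≤ (N.card : ℝ) * ((((N.card : ℝ) - 1) / ((N.card : ℝ) + 1)) * P H q) := by
  have h1 := two_rep_le H N q
  have h2 : 2 * (rep H N q : ℝ) ≤ ∑ u ∈ N, ((∑ w ∈ N.erase u, same H u w q : ℕ) : ℝ) := by
    exact_mod_cast h1
  refine le_trans h2 ?_
  calc ∑ u ∈ N, ((∑ w ∈ N.erase u, same H u w q : ℕ) : ℝ)
      ≤ ∑ _u ∈ N, ((((N.card : ℝ) - 1) / ((N.card : ℝ) + 1)) * P H q) :=
        Finset.sum_le_sum (fun u hu => sum_same_le H N u hu q hq)
    _ = _ := by rw [Finset.sum_const, nsmul_eq_mul]

/-- The final numerical inequality. -/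
lemma numeric (q d R P' : ℝ) (hq : 1 ≤ q) (hd0 : 0 ≤ d) (hd : d ≤ q - 1) (hP : 0 ≤ P')
    (hR : 2 * R ≤ d * (((d - 1) / (d + 1)) * P')) :
    (q - 1 - d) * (1 - 1 / q) * P' + R ≤ (1 - 1 / q) ^ 2 * ((q - d) * P' + R) := by
  have hq0 : 0 < q := by linarith
  have hR' : R * (2 * (d + 1)) ≤ d * (d - 1) * P' := by
    have : d * (((d - 1) / (d + 1)) * P') = d * (d - 1) * P' / (d + 1) := by ring
    rw [this, le_div_iff₀ (by linarith)] at hR
    linarith
  have key : R * (2 * q - 1) ≤ (q - 1) * d * P' := by
    have h1 : R * (2 * (d + 1)) * (2 * q - 1) ≤ d * (d - 1) * P' * (2 * q - 1) :=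
      mul_le_mul_of_nonneg_right hR' (by linarith)
    have h2 : d * (d - 1) * P' * (2 * q - 1) ≤ (q - 1) * d * P' * (2 * (d + 1)) := by
      have h3 : 0 ≤ d * P' := mul_nonneg hd0 hP
      have h4 : (d - 1) * (2 * q - 1) ≤ (q - 1) * (2 * (d + 1)) := by nlinarith
      nlinarith
    have h5 : (0 : ℝ) < 2 * (d + 1) := by linarith
    have h6 : (2 * (d + 1)) * (R * (2 * q - 1)) ≤ (2 * (d + 1)) * ((q - 1) * d * P') := by
      linarith
    exact le_of_mul_le_mul_left h6 h5
  have e1 : (1 - 1 / q) ^ 2 * ((q - d) * P' + R) - ((q - 1 - d) * (1 - 1 / q) * P' + R)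
      = ((q - 1) * d * P' - R * (2 * q - 1)) / q ^ 2 := by
    field_simp
    ring
  have e2 : 0 ≤ ((q - 1) * d * P' - R * (2 * q - 1)) / q ^ 2 := by
    apply div_nonneg _ (by positivity)
    linarith
  linarith

/-- A comparison bound for `hit` from comparison bounds for the merged graphs. -/
lemma hit_bound {W : Type u} [Fintype W] (H : SimpleGraph W) (C : ℝ) (p q : ℕ)
    (hC : ∀ (u w : W) (S : Finset W), u ≠ w → ¬ H.Adj u w →
      (P (merge H u w S) p : ℝ) ≤ C * P (merge H u w S) q)
    (u : W) (S : Finset W) (hu : u ∉ S) :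
    (hit H u S p : ℝ) ≤ C * hit H u S q := by
  induction S using Finset.induction_on with
  | empty => simp [hit_empty]
  | insert w S hw ih =>
    have huS : u ∉ S := fun h => hu (Finset.mem_insert_of_mem h)
    have huw : u ≠ w := by
      rintro rfl
      exact hu (Finset.mem_insert_self _ _)
    have ih' := ih huS
    rw [hit_insert, hit_insert]
    push_cast
    by_cases hadj : H.Adj u w
    · rw [first_adj H u w S hadj, first_adj H u w S hadj]
      simpa using ih'
    · rw [first_eq H u w S huw hadj huS hw, first_eq H u w S huw hadj huS hw]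
      have := hC u w S huw hadj
      linarith

/-- A comparison bound for `rep` from comparison bounds for the merged graphs. -/
lemma rep_bound {W : Type u} [Fintype W] (H : SimpleGraph W) (C : ℝ) (p q : ℕ)
    (hC : ∀ (u w : W) (S : Finset W), u ≠ w → ¬ H.Adj u w →
      (P (merge H u w S) p : ℝ) ≤ C * P (merge H u w S) q)
    (S : Finset W) :
    (rep H S p : ℝ) ≤ C * rep H S q := by
  induction S using Finset.induction_on with
  | empty => simp [rep_empty]
  | insert u S hu ih =>
    rw [rep_insert H S u hu, rep_insert H S u hu]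
    push_cast
    have := hit_bound H C p q hC u S hu
    linarith

/-- A clique gives no repeated colours. -/
lemma rep_clique {W : Type u} [Fintype W] (H : SimpleGraph W) (N : Finset W)
    (hN : ∀ u ∈ N, ∀ w ∈ N, u ≠ w → H.Adj u w) (q : ℕ) : rep H N q = 0 := by
  have h := two_rep_le H N q
  have h0 : ∑ u ∈ N, ∑ w ∈ N.erase u, same H u w q = 0 := by
    apply Finset.sum_eq_zero
    intro u hu
    apply Finset.sum_eq_zero
    intro w hw
    rw [mem_erase] at hw
    exact same_adj H u w (hN u hu w hw.2 hw.1.symm) q
  omega

lemma card_sub {V : Type u} [Fintype V] (v : V) (inst : Fintype {x : V // x ≠ v}) :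
    @Fintype.card {x : V // x ≠ v} inst = Fintype.card V - 1 := by
  have h : @Fintype.card {x : V // x ≠ v} _ = Fintype.card V - 1 := by
    rw [Fintype.card_subtype_compl, Fintype.card_subtype_eq]
  rw [← h]

/-- **The clique-number bound.** -/
theorem ratio_bound (n : ℕ) : ∀ (V : Type u) [Fintype V] (G : SimpleGraph V) (q k : ℕ),
    Fintype.card V = n → n ≤ q → (∃ K : Finset V, G.IsNClique k K) →
    (P G (q - 1) : ℝ) ≤ ((1 - (k : ℝ) / q) * (1 - 1 / (q : ℝ)) ^ (n - k)) * P G q := by
  induction n using Nat.strong_induction_on with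
  | _ n IH =>
  intro V _ G q k hV hnq hK
  obtain ⟨K, hK⟩ := hK
  have hKk : K.card = k := hK.card_eq
  have hkn : k ≤ n := by
    rw [← hKk, ← hV]
    exact Finset.card_le_univ K
  rcases Nat.eq_zero_or_pos n with hn0 | hn0
  · -- no vertices
    subst hn0
    have hk0 : k = 0 := by omega
    subst hk0
    have hE : IsEmpty V := Fintype.card_eq_zero_iff.mp hV
    have h1 : ∀ r, P G r = 1 := by
      intro r
      rw [P_eq, Finset.card_eq_one]
      refine ⟨fun v => (hE.false v).elim, ?_⟩
      ext f
      simp only [mem_cols, mem_singleton]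
      constructor
      · intro _
        funext v
        exact (hE.false v).elim
      · intro _ a
        exact (hE.false a).elim
    rw [h1, h1]
    simp
  have hq1 : 1 ≤ q := by omega
  have hqR : (1 : ℝ) ≤ (q : ℝ) := by exact_mod_cast hq1
  have hq0 : (0 : ℝ) < (q : ℝ) := by linarith
  have hcast : ((q - 1 : ℕ) : ℝ) = (q : ℝ) - 1 := by
    rw [Nat.cast_sub hq1]
    simp
  have hkR : (k : ℝ) ≤ (n : ℝ) := by exact_mod_cast hkn
  have hnR : (n : ℝ) ≤ (q : ℝ) := by exact_mod_cast hnq
  have hc0 : 0 ≤ 1 - (k : ℝ) / q := by
    rw [sub_nonneg, div_le_one hq0]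
    linarith
  have ha0 : 0 ≤ 1 - 1 / (q : ℝ) := by
    rw [sub_nonneg, div_le_one hq0]
    exact hqR
  by_cases hall : ∀ v, v ∈ K
  · -- the clique is everything
    have hKu : K = Finset.univ := by
      ext v
      simp [hall v]
    have hkn' : k = n := by
      rw [← hKk, hKu, Finset.card_univ, hV]
    have hcomp : ∀ a b : V, a ≠ b → G.Adj a b := by
      intro a b hab
      exact hK.isClique (hall a) (hall b) hab
    have hne : Nonempty V := Fintype.card_pos_iff.mp (by omega)
    obtain ⟨v⟩ := hne
    have hcardH : Fintype.card {x : V // x ≠ v} = n - 1 := by rw [card_sub, hV]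
    have hN : nbr G v = Finset.univ := by
      ext x
      simp only [nbr, mem_filter, mem_univ, true_and, iff_true]
      exact hcomp _ _ x.2.symm
    have hNc : (nbr G v).card = n - 1 := by rw [hN, Finset.card_univ, hcardH]
    have hNcR : ((nbr G v).card : ℝ) = (n : ℝ) - 1 := by
      rw [hNc, Nat.cast_sub hn0]
      simp
    have hadjH : ∀ a b : {x : V // x ≠ v}, a ≠ b → (del G v).Adj a b := by
      intro a b hab
      exact hcomp _ _ (fun h => hab (Subtype.ext h))
    have hrep : ∀ r, rep (del G v) (nbr G v) r = 0 :=
      fun r => rep_clique _ _ (fun a _ b _ hab => hadjH a b hab) r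
    have hIH := IH (n - 1) (by omega) {x : V // x ≠ v} (del G v) q (n - 1) hcardH (by omega)
      ⟨Finset.univ, by
        rw [SimpleGraph.isNClique_iff]
        refine ⟨fun a _ b _ hab => hadjH a b hab, ?_⟩
        rw [Finset.card_univ, hcardH]⟩
    rw [P_del_real G v (q - 1), P_del_real G v q, hrep, hrep, hcast, hNcR, hkn']
    have hn1 : ((n - 1 : ℕ) : ℝ) = (n : ℝ) - 1 := by
      rw [Nat.cast_sub hn0]
      simp
    rw [hn1] at hIH
    simp only [Nat.sub_self, pow_zero, mul_one, Nat.cast_zero, add_zero] at hIH ⊢
    have hqn : 0 ≤ (q : ℝ) - n := by linarith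
    calc ((q : ℝ) - 1 - (n - 1)) * (P (del G v) (q - 1) : ℝ)
        = ((q : ℝ) - n) * (P (del G v) (q - 1) : ℝ) := by ring
      _ ≤ ((q : ℝ) - n) * ((1 - ((n : ℝ) - 1) / q) * P (del G v) q) :=
          mul_le_mul_of_nonneg_left hIH hqn
      _ = (1 - (n : ℝ) / q) * (((q : ℝ) - (n - 1)) * P (del G v) q) := by
          field_simp
  · -- there is a vertex outside the clique
    push Not at hall
    obtain ⟨v, hv⟩ := hall
    have hcardH : Fintype.card {x : V // x ≠ v} = n - 1 := by rw [card_sub, hV]
    have hkn1 : k ≤ n - 1 := by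
      have h1 := Finset.card_le_univ (insert v K)
      rw [Finset.card_insert_of_notMem hv, hKk, hV] at h1
      omega
    set H := del G v with hH
    set N := nbr G v with hN
    have hKH : ∃ K' : Finset {x : V // x ≠ v}, H.IsNClique k K' := by
      refine ⟨K.subtype (fun x => x ≠ v), ?_⟩
      rw [SimpleGraph.isNClique_iff]
      constructor
      · intro a ha b hb hab
        simp only [Finset.mem_coe, Finset.mem_subtype] at ha hb
        exact hK.isClique ha hb (fun h => hab (Subtype.ext h))
      · rw [Finset.card_subtype, Finset.filter_true_of_mem, hKk]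
        intro x hx h
        subst h
        exact hv hx
    rcases Nat.lt_or_ge q 2 with hq2 | hq2
    · -- q = 1
      have hq1' : q = 1 := by omega
      subst hq1'
      have h0 : P G (1 - 1) = 0 := by
        rw [P_eq, Finset.card_eq_zero, Finset.eq_empty_iff_forall_notMem]
        intro f _
        exact (f v).elim0
      rw [h0]
      simp only [Nat.cast_zero]
      positivity
    have hq2R : (2 : ℝ) ≤ (q : ℝ) := by exact_mod_cast hq2
    have hapos : 0 < 1 - 1 / (q : ℝ) := by
      rw [sub_pos, div_lt_one hq0]
      linarith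
    set a : ℝ := 1 - 1 / (q : ℝ) with ha
    set c : ℝ := 1 - (k : ℝ) / q with hc
    have hIH := IH (n - 1) (by omega) {x : V // x ≠ v} H q k hcardH (by omega) hKH
    have hpow1 : a ^ (n - 1 - k) = a ^ (n - k) / a := by
      rw [eq_div_iff hapos.ne', ← pow_succ]
      congr 1
      omega
    have hC : ∀ (u w : {x : V // x ≠ v}) (S : Finset {x : V // x ≠ v}), u ≠ w →
        ¬ H.Adj u w →
        (P (merge H u w S) (q - 1) : ℝ)
          ≤ (c * (a ^ (n - k) / a ^ 2)) * P (merge H u w S) q := by
      intro u w S huw hadj
      have hcardM : Fintype.card {x : {x : V // x ≠ v} // x ≠ u} = n - 2 := by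
        rw [card_sub, hcardH]
        omega
      have hKM := merge_clique H u w S huw hadj k hKH
      have hkn2 : k ≤ n - 2 := by
        obtain ⟨K', hK'⟩ := hKM
        rw [← hK'.card_eq, ← hcardM]
        exact Finset.card_le_univ K'
      have hn2 : 2 ≤ n := by
        have h1 : 0 < Fintype.card {x : V // x ≠ v} := Fintype.card_pos_iff.mpr ⟨u⟩
        omega
      have hIHM := IH (n - 2) (by omega) _ (merge H u w S) q k hcardM (by omega) hKM
      have hpow2 : a ^ (n - 2 - k) = a ^ (n - k) / a ^ 2 := by
        rw [eq_div_iff (by positivity), ← pow_add]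
        congr 1
        omega
      rw [hpow2] at hIHM
      exact hIHM
    have hrep := rep_bound H (c * (a ^ (n - k) / a ^ 2)) (q - 1) q hC N
    rw [hpow1] at hIH
    have hd : N.card ≤ n - 1 := by
      rw [← hcardH]
      exact Finset.card_le_univ N
    have hdR : (N.card : ℝ) ≤ (q : ℝ) - 1 := by
      have h1 : N.card + 1 ≤ q := by omega
      have h2 : (N.card : ℝ) + 1 ≤ (q : ℝ) := by exact_mod_cast h1
      linarith
    have hcq : Fintype.card {x : V // x ≠ v} + 1 ≤ q := by omega
    have hrl := rep_le H N q hcq
    have hnum := numeric (q : ℝ) (N.card : ℝ) (rep H N q) (P H q) hqR (Nat.cast_nonneg _) hdR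
      (Nat.cast_nonneg _) hrl
    rw [P_del_real G v (q - 1), P_del_real G v q, hcast, ← hH, ← hN]
    have hT : 0 ≤ c * (a ^ (n - k) / a ^ 2) := by positivity
    have hd2 : 0 ≤ (q : ℝ) - 1 - N.card := by linarith
    calc ((q : ℝ) - 1 - N.card) * (P H (q - 1) : ℝ) + (rep H N (q - 1) : ℝ)
        ≤ ((q : ℝ) - 1 - N.card) * (c * (a ^ (n - k) / a) * P H q)
            + (c * (a ^ (n - k) / a ^ 2)) * rep H N q :=
          add_le_add (mul_le_mul_of_nonneg_left hIH hd2) hrep
      _ = (c * (a ^ (n - k) / a ^ 2))
            * (((q : ℝ) - 1 - N.card) * a * P H q + rep H N q) := by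
          field_simp
      _ ≤ (c * (a ^ (n - k) / a ^ 2))
            * (a ^ 2 * (((q : ℝ) - N.card) * P H q + rep H N q)) :=
          mul_le_mul_of_nonneg_left hnum hT
      _ = c * a ^ (n - k) * (((q : ℝ) - N.card) * P H q + rep H N q) := by
          field_simp

end main

end Pool.Agent.Lib.MP_31cced_co
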